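import Pool.Agent.Lib.MP_104326_lc.KC.F1

set_option autoImplicit false

/-!
The number `t n` of fixed polyominoes with `n` cells is computed by a Turing machine within
`exp (C √n log (n + 1))` steps.

Idea: every set of `n` cells has, for some `r ≤ h = ⌊√n⌋`, at most `h` cells in the rows with
`y = r mod (h + 1)`. For the first such `r` the cells in these rows are chosen first; the strips of
height `h` between these rows are scanned cell by cell, remembering the labels of the last `h` cells.
Connected sets are counted by inclusion and exclusion over the number of labels: a set with `c`
components has `j ^ (c - 1)` labellings with `j` labels (constant on components, the component of the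
origin with label `1`).
-/

namespace Pool.Agent.Results.MP_104326_lc.CountingSubexponential

open Pool.Agent.Lib.MP_104326_lc Pool.Agent.Lib.MP_33f9c4_lc

theorem result : ∃ (U : Machine) (C : ℝ), ∀ n : ℕ, 1 ≤ n →
    Outputs U (List.replicate n true) (Nat.bits (t n))
      ⌊Real.exp (C * Real.sqrt n * Real.log (n + 1))⌋₊ := by
  obtain ⟨-, -, h, -⟩ := main
  exact h

end Pool.Agent.Results.MP_104326_lc.CountingSubexponential
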