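import Pool.Agent.Lib.MP_104326_lc.KC.F1

set_option autoImplicit false

/-!
Klarner's constant `lam = lim (t n) ^ (1 / n)` to `n` digits within
`exp (C n ^ (3 / 2) 10 ^ (n / 2))` steps of a Turing machine.
-/

namespace Pool.Agent.Results.MP_104326_lc.KlarnerDigits

open Pool.Agent.Lib.MP_104326_lc Pool.Agent.Lib.MP_33f9c4_lc Filter Topology

theorem result :
    ∃ lam : ℝ, Tendsto (fun n : ℕ => (t n : ℝ) ^ ((1 : ℝ) / n)) atTop (𝓝 lam) ∧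
    ∃ (U : Machine) (C : ℝ), ∀ n : ℕ, 1 ≤ n → ∃ a : ℕ,
      (10 : ℝ) ^ (-(n : ℤ)) < |(a : ℝ) / 10 ^ (n + 2) - lam| ∧
      |(a : ℝ) / 10 ^ (n + 2) - lam| < (10 : ℝ) ^ (-(n : ℤ) + 1) ∧
      Outputs U (List.replicate n true) (Nat.bits a)
        ⌊Real.exp (C * (n : ℝ) ^ ((3 : ℝ) / 2) * (10 : ℝ) ^ ((n : ℝ) / 2))⌋₊ := by
  obtain ⟨lam, h1, -, h2⟩ := main
  exact ⟨lam, h1, h2⟩

end Pool.Agent.Results.MP_104326_lc.KlarnerDigits
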