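import Pool.Agent.Lib.MP_104326_lc.FP.FLam

set_option autoImplicit false

/-!
Klarner's constant `lam = lim (t n) ^ (1 / n)` to `n` digits in randomised time `2 ^ O(n)`, that is in
time polynomial in the inverse of the accuracy.

Idea: approximate `t p` in polynomial time for all `p` in a window `[K, 4 K]`, `K = 2 ^ O(n)`, of which one
gives `lam` to the accuracy `10 ^ (-n)`. For the approximation: every polyomino has a canonical split
into two connected parts. Mark the two cells where the parts touch; a polyomino with six marks is
split so that the marks are distributed evenly, one with fewer marks so that the cells are. Then the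
pieces at all nodes of the decomposition tree, whose depth is logarithmic, have at most six marks,
and the part of the polyomino outside a piece has at most `24` connected components. Every node of a
binary tree of logarithmic depth carries a pool of weighted random samples of marked polyominoes,
computed from the pools of its two children by random gluing and merging.
-/

namespace Pool.Agent.Results.MP_104326_lc.KlarnerExpTime

open Pool.Agent.Lib.MP_104326_lc Pool.Agent.Lib.MP_33f9c4_lc Filter Topology

theorem result :
    ∃ lam : ℝ, Tendsto (fun n : ℕ => (t n : ℝ) ^ ((1 : ℝ) / n)) atTop (𝓝 lam) ∧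
    ∃ (U : Machine) (c d : ℕ), ∀ n : ℕ, 1 ≤ n →
      ∃ a : (Fin (2 ^ (c * n)) → Bool) → ℕ,
        (∀ r : Fin (2 ^ (c * n)) → Bool,
          Outputs U (List.replicate n true ++ false :: List.ofFn r)
          (Nat.bits (a r)) (2 ^ (d * n))) ∧
        2 ^ n * (Finset.univ.filter (fun r : Fin (2 ^ (c * n)) → Bool =>
          ¬ ((10 : ℝ) ^ (-(n : ℤ)) < |(a r : ℝ) / 10 ^ (n + 2) - lam| ∧
            |(a r : ℝ) / 10 ^ (n + 2) - lam| < (10 : ℝ) ^ (-(n : ℤ) + 1)))).card ≤
          2 ^ (2 ^ (c * n)) :=
  FP.mainLam

end Pool.Agent.Results.MP_104326_lc.KlarnerExpTime
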