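import Pool.Agent.Lib.MP_104326_lc.FP.FCnt

set_option autoImplicit false

/-!
The number `t n` of fixed polyominoes with `n` cells is approximated within a factor `1 ± 1 / j`, with
probability at least `1 - 1 / j`, in time polynomial in `n` and `j` (a fully polynomial-time
randomised approximation scheme).

Idea: every polyomino has a canonical split into two connected parts. Mark the two cells where the
parts touch; a polyomino with six marks is split so that the marks are distributed evenly, one with
fewer marks so that the cells are. Then the pieces at all nodes of the decomposition tree, whose depth
is logarithmic, have at most six marks, and the part of the polyomino outside a piece has at most `24`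
connected components. Every node of a binary tree of logarithmic depth carries a pool of weighted
random samples of marked polyominoes, computed from the pools of its two children by random gluing
and merging; the samples of a pool are dependent, but by the statement on the components only
weakly, so that polynomially large pools suffice.
-/

namespace Pool.Agent.Results.MP_104326_lc.OminoFPRAS

open Pool.Agent.Lib.MP_104326_lc Pool.Agent.Lib.MP_33f9c4_lc

theorem result :
    ∃ (U : Machine) (c d : ℕ), ∀ n j : ℕ, 1 ≤ n → 1 ≤ j →
      ∃ a : (Fin ((n + j) ^ c) → Bool) → ℕ,
        (∀ r : Fin ((n + j) ^ c) → Bool, Outputs U
          (List.replicate n true ++ false :: (List.replicate j true ++ false :: List.ofFn r))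
          (Nat.bits (a r)) ((n + j) ^ d)) ∧
        j * (Finset.univ.filter (fun r : Fin ((n + j) ^ c) → Bool =>
          ¬ (|(a r : ℝ) - t n| ≤ (t n : ℝ) / j))).card ≤ 2 ^ ((n + j) ^ c) :=
  FP.mainCnt

end Pool.Agent.Results.MP_104326_lc.OminoFPRAS
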